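import Mathlib

/-!
# Broadcast irredundance versus irredundance

For every finite connected graph `G` of girth at least `5` with at least two vertices, in particular
for every tree, `ir_b(G) ≤ γ_b(G) ≤ ir(G)`.
-/

namespace Pool.Agent.Results.MP_f42b44_co.GirthFive

open SimpleGraph Finset

section defs

variable {V : Type} (G : SimpleGraph V)

/-- Closed neighbourhood. -/
def Nc (s : V) : Set V := {u | u = s ∨ G.Adj s u}

/-- The private neighbourhood of `s` with respect to `S`: the vertices of `N[s]` lying in no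
`N[s']` with `s' ∈ S \ {s}`. -/
def PN (s : V) (S : Set V) : Set V := {u | u ∈ Nc G s ∧ ∀ t ∈ S, t ≠ s → u ∉ Nc G t}

/-- Irredundant sets. -/
def Irr (S : Set V) : Prop := ∀ s ∈ S, (PN G s S).Nonempty

/-- Maximal irredundant sets. -/
def MaxIrr (S : Set V) : Prop := Irr G S ∧ ∀ S', S ⊂ S' → ¬ Irr G S'

/-- The irredundance number. -/
noncomputable def ir : ℕ := sInf {n | ∃ S : Set V, MaxIrr G S ∧ S.ncard = n}

variable [Fintype V]

/-- Eccentricity. -/
noncomputable def ecc (v : V) : ℕ := univ.sup (fun u => G.dist v u)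

/-- Diameter. -/
noncomputable def diameter : ℕ := univ.sup (fun v => ecc G v)

/-- Broadcasts: `f v ∈ {0, …, diam}` and `f v ≤ e(v)`. -/
def IsBroadcast (f : V → ℕ) : Prop := ∀ v, f v ≤ diameter G ∧ f v ≤ ecc G v

/-- The cost of a broadcast. -/
def cost (f : V → ℕ) : ℕ := ∑ v, f v

/-- `u` hears `f` from `v`. -/
def Hears (f : V → ℕ) (u v : V) : Prop := 0 < f v ∧ G.dist u v ≤ f v

/-- The broadcast `f_v^-`. -/
noncomputable def fminus (f : V → ℕ) (v : V) : V → ℕ := by
  classical exact Function.update f v (f v - 1)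

/-- Private boundary of `v`. -/
def PB (f : V → ℕ) (v : V) : Set V :=
  {u | G.dist u v ≤ f v ∧ ∀ w, ¬ Hears G (fminus f v) u w}

/-- Irredundant broadcasts. -/
def IrrB (f : V → ℕ) : Prop := ∀ v, 0 < f v → (PB G f v).Nonempty

/-- Maximal irredundant broadcasts. -/
def MaxIrrB (f : V → ℕ) : Prop :=
  IsBroadcast G f ∧ IrrB G f ∧ ∀ g, IsBroadcast G g → f ≤ g → g ≠ f → ¬ IrrB G g

/-- The broadcast irredundance number. -/
noncomputable def irb : ℕ := sInf {c | ∃ f : V → ℕ, MaxIrrB G f ∧ cost f = c}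

/-- Dominating broadcasts. -/
def DomB (f : V → ℕ) : Prop := IsBroadcast G f ∧ ∀ u, ∃ v, Hears G f u v

/-- The broadcast domination number. -/
noncomputable def gammab : ℕ := sInf {c | ∃ f : V → ℕ, DomB G f ∧ cost f = c}

end defs

section irb_le_gammab

variable {V : Type} [Fintype V] (G : SimpleGraph V)

theorem fminus_self (f : V → ℕ) (v : V) : fminus f v v = f v - 1 := by
  simp [fminus]

theorem fminus_ne (f : V → ℕ) (v w : V) (h : w ≠ v) : fminus f v w = f w := by
  simp [fminus, h]

theorem fminus_le (f : V → ℕ) (v w : V) : fminus f v w ≤ f w := by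
  by_cases h : w = v
  · subst h; rw [fminus_self]; omega
  · rw [fminus_ne _ _ _ h]

theorem cost_fminus (f : V → ℕ) (v : V) (h : 0 < f v) : cost (fminus f v) < cost f := by
  unfold cost
  apply Finset.sum_lt_sum
  · intro i _; exact fminus_le f v i
  · exact ⟨v, mem_univ v, by rw [fminus_self]; omega⟩

theorem dom_min_maxIrr {f : V → ℕ} (hf : DomB G f) (hmin : ∀ g, DomB G g → cost f ≤ cost g) :
    MaxIrrB G f := by
  refine ⟨hf.1, ?_, ?_⟩
  · intro v hv
    by_contra hemp
    rw [Set.not_nonempty_iff_eq_empty] at hemp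
    have hdom : DomB G (fminus f v) := by
      refine ⟨fun w => ⟨le_trans (fminus_le f v w) (hf.1 w).1,
        le_trans (fminus_le f v w) (hf.1 w).2⟩, ?_⟩
      intro u
      by_contra hno
      push Not at hno
      have hall : ∀ w, ¬ Hears G (fminus f v) u w := hno
      obtain ⟨w, hw⟩ := hf.2 u
      have hwv : w = v := by
        by_contra hne
        apply hall w
        unfold Hears
        rw [fminus_ne _ _ _ hne]
        exact hw
      subst hwv
      have : u ∈ PB G f w := ⟨hw.2, hall⟩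
      rw [hemp] at this
      exact this
    have h1 := hmin _ hdom
    have h2 := cost_fminus f v hv
    omega
  · intro g hg hle hne hirr
    obtain ⟨v, hv⟩ : ∃ v, f v ≠ g v := by
      by_contra hall
      push Not at hall
      exact hne (funext fun v => (hall v).symm)
    have hlt : f v < g v := lt_of_le_of_ne (hle v) hv
    obtain ⟨u, hu1, hu2⟩ := hirr v (by omega)
    obtain ⟨w, hw1, hw2⟩ := hf.2 u
    apply hu2 w
    have : f w ≤ fminus g v w := by
      by_cases h : w = v
      · subst h; rw [fminus_self]; omega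
      · rw [fminus_ne _ _ _ h]; exact hle w
    exact ⟨lt_of_lt_of_le hw1 this, le_trans hw2 this⟩

theorem dist_le_ecc (u v : V) : G.dist u v ≤ ecc G v := by
  rw [G.dist_comm]
  exact Finset.le_sup (f := fun u => G.dist v u) (mem_univ u)

theorem ecc_le_diam (v : V) : ecc G v ≤ diameter G :=
  Finset.le_sup (f := fun v => ecc G v) (mem_univ v)

theorem ecc_pos [Nontrivial V] (hc : G.Connected) (v : V) : 0 < ecc G v := by
  obtain ⟨u, hu⟩ := exists_ne v
  have h1 := dist_le_ecc G u v
  have h2 := hc.pos_dist_of_ne hu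
  omega

/-- Capping. -/
theorem dom_cap [Nontrivial V] (hc : G.Connected) {f : V → ℕ}
    (hf : ∀ u, ∃ v, 0 < f v ∧ G.dist u v ≤ f v) : ∃ g, DomB G g ∧ cost g ≤ cost f := by
  refine ⟨fun v => min (f v) (ecc G v), ⟨?_, ?_⟩, ?_⟩
  · intro v
    exact ⟨le_trans (min_le_right _ _) (ecc_le_diam G v), min_le_right _ _⟩
  · intro u
    obtain ⟨v, hv1, hv2⟩ := hf u
    exact ⟨v, lt_min hv1 (ecc_pos G hc v), le_min hv2 (dist_le_ecc G u v)⟩
  · exact Finset.sum_le_sum fun v _ => min_le_left _ _

theorem gammab_attained [Nontrivial V] (hc : G.Connected) :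
    ∃ f : V → ℕ, DomB G f ∧ cost f = gammab G := by
  have hne : {c | ∃ f : V → ℕ, DomB G f ∧ cost f = c}.Nonempty := by
    obtain ⟨g, hg, _⟩ := dom_cap G hc (f := fun _ => 1) (fun u => ⟨u, one_pos, by simp⟩)
    exact ⟨cost g, g, hg, rfl⟩
  exact Nat.sInf_mem hne

theorem irb_le_gammab [Nontrivial V] (hc : G.Connected) : irb G ≤ gammab G := by
  obtain ⟨f, hf, hcost⟩ := gammab_attained G hc
  rw [← hcost]
  apply Nat.sInf_le
  refine ⟨f, dom_min_maxIrr G hf ?_, rfl⟩
  intro g hg
  rw [hcost]
  exact Nat.sInf_le ⟨g, hg, rfl⟩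

end irb_le_gammab

section main

variable {V : Type} [Fintype V] [DecidableEq V] (G : SimpleGraph V)

/-- `T` (a set of non-isolated members) is a good cluster with centre `z`. -/
def Good (A Y : Finset V) : Prop :=
  Y ⊆ A ∧ 3 ≤ Y.card ∧ (∀ y ∈ Y, ∃ y' ∈ Y, G.Adj y y') ∧ ∃ z, ∀ y ∈ Y, G.dist z y + 2 ≤ Y.card

theorem dist_one {u v : V} (h : G.Adj u v) : G.dist u v ≤ 1 := by
  have := G.dist_le h.toWalk
  simpa using this

/-- Adding an adjacent vertex. -/
theorem grow_one (hc : G.Connected) {A Y : Finset V} (hY : Good G A Y) {x y : V} (hx : x ∈ A)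
    (hxY : x ∉ Y) (hy : y ∈ Y) (hadj : G.Adj x y) : ∃ Y', Good G A Y' ∧ Y.card < Y'.card := by
  obtain ⟨hsub, h3, hn, z, hz⟩ := hY
  refine ⟨insert x Y, ⟨?_, ?_, ?_, z, ?_⟩, ?_⟩
  · intro t ht
    rcases Finset.mem_insert.1 ht with rfl | ht
    · exact hx
    · exact hsub ht
  · rw [card_insert_of_notMem hxY]; omega
  · intro t ht
    rcases Finset.mem_insert.1 ht with rfl | ht
    · exact ⟨y, mem_insert_of_mem hy, hadj⟩
    · obtain ⟨y', hy', hh⟩ := hn t ht
      exact ⟨y', mem_insert_of_mem hy', hh⟩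
  · intro t ht
    rw [card_insert_of_notMem hxY]
    rcases Finset.mem_insert.1 ht with rfl | ht
    · have h1 := hz y hy
      have h2 := hc.dist_triangle (u := z) (v := y) (w := t)
      have h3 := dist_one G hadj.symm
      omega
    · have := hz t ht
      omega
  · rw [card_insert_of_notMem hxY]; omega

/-- Moving one step from `z` towards `x`. -/
theorem step_toward (hc : G.Connected) (z x : V) :
    ∃ z', G.dist z z' ≤ 1 ∧ G.dist z' x ≤ G.dist z x - 1 := by
  by_cases h : z = x
  · subst h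
    exact ⟨z, by simp, by simp⟩
  · obtain ⟨p, hp⟩ := hc.exists_walk_length_eq_dist z x
    cases p with
    | nil => exact absurd rfl h
    | cons hadj q =>
      rename_i w
      refine ⟨w, dist_one G hadj, ?_⟩
      have h1 := G.dist_le q
      simp only [Walk.length_cons] at hp
      omega

/-- Adding a pair. -/
theorem grow_two (hc : G.Connected) {A Y : Finset V} (hY : Good G A Y) {x x' y : V} (hx : x ∈ A)
    (hx' : x' ∈ A) (hxY : x ∉ Y) (hxY' : x' ∉ Y) (hy : y ∈ Y) (hd : G.dist y x ≤ 2)
    (hadj : G.Adj x x') : ∃ Y', Good G A Y' ∧ Y.card < Y'.card := by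
  obtain ⟨hsub, h3, hn, z, hz⟩ := hY
  obtain ⟨z', hz1, hz2⟩ := step_toward G hc z x
  have hxx' : x ≠ x' := G.ne_of_adj hadj
  have hxi : x ∉ insert x' Y := by
    intro h
    rcases Finset.mem_insert.1 h with h | h
    · exact hxx' h
    · exact hxY h
  have hcard : (insert x (insert x' Y)).card = Y.card + 2 := by
    rw [card_insert_of_notMem hxi, card_insert_of_notMem hxY']
  refine ⟨insert x (insert x' Y), ⟨?_, ?_, ?_, z', ?_⟩, ?_⟩
  · intro t ht
    simp only [Finset.mem_insert] at ht
    rcases ht with rfl | rfl | ht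
    · exact hx
    · exact hx'
    · exact hsub ht
  · omega
  · intro t ht
    simp only [Finset.mem_insert] at ht
    rcases ht with rfl | rfl | ht
    · exact ⟨x', by simp, hadj⟩
    · exact ⟨x, by simp, hadj.symm⟩
    · obtain ⟨y', hy', hh⟩ := hn t ht
      exact ⟨y', by simp [hy'], hh⟩
  · intro t ht
    rw [hcard]
    have hzy := hz y hy
    have hzx := hc.dist_triangle (u := z) (v := y) (w := x)
    simp only [Finset.mem_insert] at ht
    rcases ht with rfl | rfl | ht
    · omega
    · have h2 := hc.dist_triangle (u := z') (v := x) (w := t)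
      have h3 := dist_one G hadj
      omega
    · have h2 := hc.dist_triangle (u := z') (v := z) (w := t)
      have h3 : G.dist z' z ≤ 1 := by rw [G.dist_comm]; exact hz1
      have h4 := hz t ht
      omega
  · omega

/-- Starting a cluster. -/
theorem base (hc : G.Connected) {A : Finset V} (hA : ∀ s ∈ A, ∃ s' ∈ A, G.Adj s s') {a b x : V}
    (ha : a ∈ A) (hb : b ∈ A) (hab : G.Adj a b) (hx : x ∈ A) (hxa : x ≠ a) (hxb : x ≠ b)
    (hd : G.dist a x ≤ 2) : ∃ Y, Good G A Y := by
  have hane : a ≠ b := G.ne_of_adj hab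
  by_cases h1 : G.Adj a x
  · refine ⟨{a, b, x}, ?_, ?_, ?_, a, ?_⟩
    · intro t ht
      simp only [Finset.mem_insert, Finset.mem_singleton] at ht
      rcases ht with rfl | rfl | rfl <;> assumption
    · rw [card_insert_of_notMem (by simp [hane, hxa.symm]),
        card_insert_of_notMem (by simp [hxb.symm])]
      simp
    · intro t ht
      simp only [Finset.mem_insert, Finset.mem_singleton] at ht
      rcases ht with rfl | rfl | rfl
      · exact ⟨b, by simp, hab⟩
      · exact ⟨a, by simp, hab.symm⟩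
      · exact ⟨a, by simp, h1.symm⟩
    · intro t ht
      rw [card_insert_of_notMem (by simp [hane, hxa.symm]),
        card_insert_of_notMem (by simp [hxb.symm])]
      simp only [Finset.mem_insert, Finset.mem_singleton] at ht
      rcases ht with rfl | rfl | rfl
      · simp
      · have := dist_one G hab; simp; omega
      · have := dist_one G h1; simp; omega
  by_cases h2 : G.Adj b x
  · refine ⟨{a, b, x}, ?_, ?_, ?_, b, ?_⟩
    · intro t ht
      simp only [Finset.mem_insert, Finset.mem_singleton] at ht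
      rcases ht with rfl | rfl | rfl <;> assumption
    · rw [card_insert_of_notMem (by simp [hane, hxa.symm]),
        card_insert_of_notMem (by simp [hxb.symm])]
      simp
    · intro t ht
      simp only [Finset.mem_insert, Finset.mem_singleton] at ht
      rcases ht with rfl | rfl | rfl
      · exact ⟨b, by simp, hab⟩
      · exact ⟨a, by simp, hab.symm⟩
      · exact ⟨b, by simp, h2.symm⟩
    · intro t ht
      rw [card_insert_of_notMem (by simp [hane, hxa.symm]),
        card_insert_of_notMem (by simp [hxb.symm])]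
      simp only [Finset.mem_insert, Finset.mem_singleton] at ht
      rcases ht with rfl | rfl | rfl
      · have := dist_one G hab.symm; simp; omega
      · simp
      · have := dist_one G h2; simp; omega
  obtain ⟨x', hx', hadj⟩ := hA x hx
  have hx'a : x' ≠ a := by rintro rfl; exact h1 hadj.symm
  have hx'b : x' ≠ b := by rintro rfl; exact h2 hadj.symm
  have hxx' : x ≠ x' := G.ne_of_adj hadj
  -- the middle vertex
  obtain ⟨c, hc1, hc2⟩ := step_toward G hc a x
  have hcard : ({a, b, x, x'} : Finset V).card = 4 := by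
    rw [card_insert_of_notMem (by simp [hane, hxa.symm, hx'a.symm]),
      card_insert_of_notMem (by simp [hxb.symm, hx'b.symm]),
      card_insert_of_notMem (by simp [hxx'])]
    simp
  refine ⟨{a, b, x, x'}, ?_, by omega, ?_, c, ?_⟩
  · intro t ht
    simp only [Finset.mem_insert, Finset.mem_singleton] at ht
    rcases ht with rfl | rfl | rfl | rfl <;> assumption
  · intro t ht
    simp only [Finset.mem_insert, Finset.mem_singleton] at ht
    rcases ht with rfl | rfl | rfl | rfl
    · exact ⟨b, by simp, hab⟩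
    · exact ⟨a, by simp, hab.symm⟩
    · exact ⟨x', by simp, hadj⟩
    · exact ⟨x, by simp, hadj.symm⟩
  · intro t ht
    rw [hcard]
    simp only [Finset.mem_insert, Finset.mem_singleton] at ht
    have hca : G.dist c a ≤ 1 := by rw [G.dist_comm]; exact hc1
    rcases ht with rfl | rfl | rfl | rfl
    · omega
    · have h2 := hc.dist_triangle (u := c) (v := a) (w := t)
      have h3 := dist_one G hab
      omega
    · omega
    · have h2 := hc.dist_triangle (u := c) (v := x) (w := t)
      have h3 := dist_one G hadj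
      omega

/-- The vertices for which the members of `A` are responsible. -/
def Resp (S : Set V) (A : Finset V) : Set V :=
  {v | ∃ s ∈ A, v ∈ Nc G s ∨ ∃ w, PN G s S = {w} ∧ G.Adj s w ∧ G.Adj w v}

/-- Main induction. -/
theorem cover (hc : G.Connected) (htri : ∀ a b c, G.Adj a b → G.Adj b c → ¬ G.Adj a c)
    (S : Set V) : ∀ (n : ℕ) (A : Finset V), A.card = n → (∀ s ∈ A, s ∈ S) →
    (∀ s ∈ A, ∃ s' ∈ A, G.Adj s s') →
    (∀ s ∈ A, ∀ s' ∈ S, (∃ t ∈ S, G.Adj s' t) → G.dist s s' ≤ 2 → s' ∈ A) →
    ∃ f : V → ℕ, cost f ≤ A.card ∧ ∀ v ∈ Resp G S A,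
      (∃ s ∈ S, (∀ t ∈ S, ¬ G.Adj s t) ∧ v ∈ Nc G s) ∨ ∃ u, 0 < f u ∧ G.dist v u ≤ f u := by
  intro n
  induction n using Nat.strong_induction_on with
  | _ n ih =>
  intro A hAn hAS hAadj hAcl
  by_cases hemp : A = ∅
  · subst hemp
    refine ⟨fun _ => 0, by simp [cost], ?_⟩
    rintro v ⟨s, hs, _⟩
    simp at hs
  obtain ⟨a, ha⟩ := Finset.nonempty_iff_ne_empty.2 hemp
  obtain ⟨b, hb, hab⟩ := hAadj a ha
  have hane : a ≠ b := G.ne_of_adj hab
  -- it suffices to find a sub-cluster Y which is closed, with an f for it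
  suffices hY : ∃ Y : Finset V, Y ⊆ A ∧ Y.Nonempty ∧
      (∀ y ∈ Y, ∃ y' ∈ Y, G.Adj y y') ∧
      (∀ y ∈ Y, ∀ x ∈ A, x ∉ Y → ¬ G.dist y x ≤ 2) ∧
      ∃ f : V → ℕ, cost f ≤ Y.card ∧ ∀ v ∈ Resp G S Y,
        (∃ s ∈ S, (∀ t ∈ S, ¬ G.Adj s t) ∧ v ∈ Nc G s) ∨ ∃ u, 0 < f u ∧ G.dist v u ≤ f u by
    obtain ⟨Y, hYA, hYne, hYadj, hYcl, f, hf1, hf2⟩ := hY
    have hcard : (A \ Y).card + Y.card = A.card := card_sdiff_add_card_eq_card hYA
    have hYpos : 0 < Y.card := card_pos.2 hYne
    obtain ⟨g, hg1, hg2⟩ := ih (A \ Y).card (by omega) (A \ Y) rfl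
      (fun s hs => hAS s (mem_sdiff.1 hs).1)
      (by
        intro s hs
        obtain ⟨hsA, hsY⟩ := mem_sdiff.1 hs
        obtain ⟨s', hs', hadj⟩ := hAadj s hsA
        refine ⟨s', mem_sdiff.2 ⟨hs', ?_⟩, hadj⟩
        intro hs'Y
        apply hYcl s' hs'Y s hsA hsY
        have := dist_one G hadj.symm
        omega)
      (by
        intro s hs s' hs' hex hd
        obtain ⟨hsA, hsY⟩ := mem_sdiff.1 hs
        refine mem_sdiff.2 ⟨hAcl s hsA s' hs' hex hd, ?_⟩
        intro hs'Y
        apply hYcl s' hs'Y s hsA hsY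
        rw [G.dist_comm]
        exact hd)
    refine ⟨fun v => f v + g v, ?_, ?_⟩
    · have : cost (fun v => f v + g v) = cost f + cost g := Finset.sum_add_distrib
      rw [this]
      omega
    · rintro v ⟨s, hs, hv⟩
      by_cases hsY : s ∈ Y
      · rcases hf2 v ⟨s, hsY, hv⟩ with h | ⟨u, hu1, hu2⟩
        · exact Or.inl h
        · exact Or.inr ⟨u, by simp only; omega, by simp only; omega⟩
      · rcases hg2 v ⟨s, mem_sdiff.2 ⟨hs, hsY⟩, hv⟩ with h | ⟨u, hu1, hu2⟩
        · exact Or.inl h
        · exact Or.inr ⟨u, by simp only; omega, by simp only; omega⟩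
  by_cases hgood : ∃ Y, Good G A Y
  · -- take a good Y of maximal cardinality
    obtain ⟨Y, hY, hmax⟩ : ∃ Y, Good G A Y ∧ ∀ Y', Good G A Y' → Y'.card ≤ Y.card := by
      classical
      obtain ⟨Y, hY, hmax⟩ := Finset.exists_max_image
        ((Finset.univ : Finset (Finset V)).filter (fun Y => Good G A Y)) Finset.card
        (by obtain ⟨Y, hY⟩ := hgood; exact ⟨Y, by simp [hY]⟩)
      refine ⟨Y, (Finset.mem_filter.1 hY).2, ?_⟩
      intro Y' hY'
      exact hmax Y' (by simp [hY'])
    have hYgood := hY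
    obtain ⟨hsub, h3, hn, z, hz⟩ := hY
    refine ⟨Y, hsub, card_pos.1 (by omega), hn, ?_, ?_⟩
    · intro y hy x hxA hxY hd
      obtain ⟨x', hx'A, hadj⟩ := hAadj x hxA
      by_cases hx'Y : x' ∈ Y
      · obtain ⟨Y', hY', hlt⟩ := grow_one G hc hYgood hxA hxY hx'Y hadj
        have := hmax Y' hY'
        omega
      · obtain ⟨Y', hY', hlt⟩ := grow_two G hc hYgood hxA hx'A hxY hx'Y hy hd hadj
        have := hmax Y' hY'
        omega
    · refine ⟨fun v => if v = z then Y.card else 0, ?_, ?_⟩
      · simp [cost]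
      · rintro v ⟨s, hs, hv⟩
        right
        refine ⟨z, by simp only [if_true]; omega, ?_⟩
        simp only [if_true]
        have hzs := hz s hs
        have hsv : G.dist v s ≤ 2 := by
          rcases hv with (rfl | h) | ⟨w, _, h1, h2⟩
          · simp
          · have := dist_one G h.symm; omega
          · have h3 := hc.dist_triangle (u := v) (v := w) (w := s)
            have h4 := dist_one G h1.symm
            have h5 := dist_one G h2.symm
            omega
        have h6 := hc.dist_triangle (u := v) (v := s) (w := z)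
        rw [G.dist_comm (u := s)] at h6
        omega
  · -- the pair {a, b} is a full cluster
    have hnoa : ∀ x ∈ A, x ≠ a → x ≠ b → ¬ G.dist a x ≤ 2 := by
      intro x hx hxa hxb hd
      exact hgood (base G hc hAadj ha hb hab hx hxa hxb hd)
    have hnob : ∀ x ∈ A, x ≠ a → x ≠ b → ¬ G.dist b x ≤ 2 := by
      intro x hx hxa hxb hd
      exact hgood (base G hc hAadj hb ha hab.symm hx hxb hxa hd)
    -- replacement of a member of the pair
    have key : ∀ a b : V, a ∈ A → b ∈ A → G.Adj a b →
        (∀ x ∈ A, x ≠ a → x ≠ b → ¬ G.dist a x ≤ 2) →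
        ∃ p : V, ∀ v, v = a ∨ (G.Adj a v ∧ v ≠ b) ∨ (∃ w, PN G a S = {w} ∧ G.Adj a w ∧ G.Adj w v) →
          (∃ s ∈ S, (∀ t ∈ S, ¬ G.Adj s t) ∧ v ∈ Nc G s) ∨ G.dist v p ≤ 1 := by
      intro a b ha hb hab hno
      -- elements of N(a) \ {b} which are not private are dominated by isolated members
      have hQ : ∀ v, G.Adj a v → v ≠ b → v ∉ PN G a S →
          (∃ s ∈ S, (∀ t ∈ S, ¬ G.Adj s t) ∧ v ∈ Nc G s) := by
        intro v hv hvb hvP
        have hvP' : ∃ t ∈ S, t ≠ a ∧ v ∈ Nc G t := by
          by_contra hcon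
          push Not at hcon
          exact hvP ⟨Or.inr hv, hcon⟩
        obtain ⟨t, htS, hta, hvt⟩ := hvP'
        refine ⟨t, htS, ?_, hvt⟩
        intro t' ht' htt'
        have hdt : G.dist a t ≤ 2 := by
          rcases hvt with rfl | hvt
          · have := dist_one G hv; omega
          · have h1 := hc.dist_triangle (u := a) (v := v) (w := t)
            have h2 := dist_one G hv
            have h3 := dist_one G hvt.symm
            omega
        have htA : t ∈ A := hAcl a ha t htS ⟨t', ht', htt'⟩ hdt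
        by_cases htb : t = b
        · subst htb
          rcases hvt with rfl | hvt
          · exact hvb rfl
          · exact htri a t v hab hvt hv
        · exact hno t htA hta htb hdt
      by_cases hP : ∃ w, PN G a S = {w} ∧ G.Adj a w
      · obtain ⟨w, hw, haw⟩ := hP
        refine ⟨w, ?_⟩
        rintro v (rfl | ⟨hv, hvb⟩ | ⟨w', hw', _, hw'v⟩)
        · right; exact dist_one G haw
        · by_cases hvP : v ∈ PN G a S
          · right
            rw [hw] at hvP
            have : v = w := hvP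
            subst this
            simp
          · left; exact hQ v hv hvb hvP
        · right
          rw [hw] at hw'
          have : w = w' := Set.singleton_injective hw'
          subst this
          exact dist_one G hw'v.symm
      · refine ⟨a, ?_⟩
        rintro v (rfl | ⟨hv, hvb⟩ | ⟨w', hw', haw', hw'v⟩)
        · right; simp
        · right; exact dist_one G hv.symm
        · exact absurd ⟨w', hw', haw'⟩ hP
    obtain ⟨p, hp⟩ := key a b ha hb hab hnoa
    obtain ⟨q, hq⟩ := key b a hb ha hab.symm (fun x hx h1 h2 => hnob x hx h2 h1)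
    refine ⟨{a, b}, ?_, ⟨a, by simp⟩, ?_, ?_, ?_⟩
    · intro t ht
      simp only [Finset.mem_insert, Finset.mem_singleton] at ht
      rcases ht with rfl | rfl <;> assumption
    · intro t ht
      simp only [Finset.mem_insert, Finset.mem_singleton] at ht
      rcases ht with rfl | rfl
      · exact ⟨b, by simp, hab⟩
      · exact ⟨a, by simp, hab.symm⟩
    · intro t ht x hx hxY
      simp only [Finset.mem_insert, Finset.mem_singleton, not_or] at ht hxY
      rcases ht with rfl | rfl
      · exact hnoa x hx hxY.1 hxY.2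
      · exact hnob x hx hxY.1 hxY.2
    · refine ⟨fun v => (if v = p then 1 else 0) + (if v = q then 1 else 0), ?_, ?_⟩
      · have hab2 : ({a, b} : Finset V).card = 2 := Finset.card_pair hane
        rw [hab2]
        simp [cost, Finset.sum_add_distrib]
      · have fin_p : ∀ v, ((∃ s ∈ S, (∀ t ∈ S, ¬ G.Adj s t) ∧ v ∈ Nc G s) ∨ G.dist v p ≤ 1) →
            (∃ s ∈ S, (∀ t ∈ S, ¬ G.Adj s t) ∧ v ∈ Nc G s) ∨
              ∃ u, 0 < (if u = p then 1 else 0) + (if u = q then 1 else 0) ∧
                G.dist v u ≤ (if u = p then 1 else 0) + (if u = q then 1 else 0) := by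
          rintro v (h | h)
          · exact Or.inl h
          · right
            refine ⟨p, by simp, ?_⟩
            simp only [if_true]
            omega
        have fin_q : ∀ v, ((∃ s ∈ S, (∀ t ∈ S, ¬ G.Adj s t) ∧ v ∈ Nc G s) ∨ G.dist v q ≤ 1) →
            (∃ s ∈ S, (∀ t ∈ S, ¬ G.Adj s t) ∧ v ∈ Nc G s) ∨
              ∃ u, 0 < (if u = p then 1 else 0) + (if u = q then 1 else 0) ∧
                G.dist v u ≤ (if u = p then 1 else 0) + (if u = q then 1 else 0) := by
          rintro v (h | h)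
          · exact Or.inl h
          · right
            refine ⟨q, by simp, ?_⟩
            simp only [if_true]
            omega
        rintro v ⟨s, hs, hv⟩
        simp only [Finset.mem_insert, Finset.mem_singleton] at hs
        rcases hs with rfl | rfl
        · rcases hv with (rfl | hv) | hv
          · exact fin_p v (hp v (Or.inl rfl))
          · by_cases hvb : v = b
            · exact fin_q v (hq v (Or.inl hvb))
            · exact fin_p v (hp v (Or.inr (Or.inl ⟨hv, hvb⟩)))
          · exact fin_p v (hp v (Or.inr (Or.inr hv)))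
        · rcases hv with (rfl | hv) | hv
          · exact fin_q v (hq v (Or.inl rfl))
          · by_cases hva : v = a
            · exact fin_p v (hp v (Or.inl hva))
            · exact fin_q v (hq v (Or.inr (Or.inl ⟨hv, hva⟩)))
          · exact fin_q v (hq v (Or.inr (Or.inr hv)))

/-- Undominated vertices of a maximal irredundant set. -/
theorem undominated (hC4 : ∀ u v w w', u ≠ v → G.Adj u w → G.Adj v w → G.Adj u w' → G.Adj v w' →
    w = w') {S : Set V} (hS : MaxIrr G S) {r : V} (hr : ∀ s ∈ S, r ∉ Nc G s) :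
    ∃ s ∈ S, (∃ t ∈ S, G.Adj s t) ∧ ∃ w, PN G s S = {w} ∧ G.Adj s w ∧ G.Adj w r := by
  have hrS : r ∉ S := fun h => hr r h (Or.inl rfl)
  have hss : S ⊂ insert r S := Set.ssubset_insert hrS
  have hnot := hS.2 _ hss
  unfold Irr at hnot
  push Not at hnot
  obtain ⟨s, hs, hemp⟩ := hnot
  have hsr : s ≠ r := by
    rintro rfl
    have : s ∈ PN G s (insert s S) := by
      refine ⟨Or.inl rfl, ?_⟩
      intro t ht hts
      rcases ht with rfl | ht
      · exact absurd rfl hts
      · exact hr t ht
    rw [hemp] at this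
    exact this
  have hsS : s ∈ S := by
    rcases hs with h | h
    · exact absurd h hsr
    · exact h
  have hsub : ∀ u ∈ PN G s S, u ∈ Nc G r := by
    intro u hu
    by_contra hur
    have : u ∈ PN G s (insert r S) := by
      refine ⟨hu.1, ?_⟩
      intro t ht hts
      rcases ht with rfl | ht
      · exact hur
      · exact hu.2 t ht hts
    rw [hemp] at this
    exact this
  have hadj : ∀ u ∈ PN G s S, G.Adj s u ∧ G.Adj r u := by
    intro u hu
    have h1 := hu.1
    have h2 := hsub u hu
    have hsr' : ¬ G.Adj s r := fun h => hr s hsS (Or.inr h)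
    rcases h2 with rfl | h2
    · exfalso
      exact hr s hsS h1
    · rcases h1 with rfl | h1
      · exact absurd h2.symm hsr'
      · exact ⟨h1, h2⟩
  obtain ⟨w, hw⟩ := hS.1 s hsS
  have hw' := hadj w hw
  refine ⟨s, hsS, ?_, w, ?_, hw'.1, hw'.2.symm⟩
  · by_contra hno
    push Not at hno
    have : s ∈ PN G s S := by
      refine ⟨Or.inl rfl, ?_⟩
      intro t ht hts hst
      rcases hst with h | h
      · exact hts h.symm
      · exact hno t ht h.symm
    exact G.irrefl (hadj s this).1
  · ext u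
    constructor
    · intro hu
      have hu' := hadj u hu
      exact hC4 s r u w hsr hu'.1 hu'.2 hw'.1 hw'.2
    · intro hu
      have : u = w := hu
      rw [this]
      exact hw

theorem gammab_le_card [Nontrivial V] (hc : G.Connected)
    (htri : ∀ a b c, G.Adj a b → G.Adj b c → ¬ G.Adj a c)
    (hC4 : ∀ u v w w', u ≠ v → G.Adj u w → G.Adj v w → G.Adj u w' → G.Adj v w' → w = w')
    {S : Set V} (hS : MaxIrr G S) : gammab G ≤ S.ncard := by
  classical
  let S0 : Finset V := univ.filter (fun s => s ∈ S ∧ ∀ t ∈ S, ¬ G.Adj s t)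
  let S1 : Finset V := univ.filter (fun s => s ∈ S ∧ ∃ t ∈ S, G.Adj s t)
  have hS1 : ∀ s, s ∈ S1 ↔ s ∈ S ∧ ∃ t ∈ S, G.Adj s t := by intro s; simp [S1]
  have hS0 : ∀ s, s ∈ S0 ↔ s ∈ S ∧ ∀ t ∈ S, ¬ G.Adj s t := by intro s; simp [S0]
  obtain ⟨f, hf1, hf2⟩ := cover G hc htri S S1.card S1 rfl
    (fun s hs => ((hS1 s).1 hs).1)
    (by
      intro s hs
      obtain ⟨h1, t, ht, hst⟩ := (hS1 s).1 hs
      exact ⟨t, (hS1 t).2 ⟨ht, s, h1, hst.symm⟩, hst⟩)
    (by
      intro s _ s' hs' hex _
      exact (hS1 s').2 ⟨hs', hex⟩)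
  obtain ⟨g, hg1, hg2⟩ := dom_cap G hc (f := fun v => f v + if v ∈ S0 then 1 else 0) (by
    intro v
    have h0 : (∃ s ∈ S, (∀ t ∈ S, ¬ G.Adj s t) ∧ v ∈ Nc G s) →
        ∃ u, 0 < f u + (if u ∈ S0 then 1 else 0) ∧
          G.dist v u ≤ f u + (if u ∈ S0 then 1 else 0) := by
      rintro ⟨s, hs, hs', hv⟩
      refine ⟨s, ?_, ?_⟩
      · rw [if_pos ((hS0 s).2 ⟨hs, hs'⟩)]; omega
      · rw [if_pos ((hS0 s).2 ⟨hs, hs'⟩)]
        rcases hv with rfl | hv
        · simp
        · have := dist_one G hv.symm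
          omega
    have h1 : v ∈ Resp G S S1 → ∃ u, 0 < f u + (if u ∈ S0 then 1 else 0) ∧
          G.dist v u ≤ f u + (if u ∈ S0 then 1 else 0) := by
      intro hv
      rcases hf2 v hv with h | ⟨u, hu1, hu2⟩
      · exact h0 h
      · exact ⟨u, by omega, by omega⟩
    by_cases hdom : ∃ s ∈ S, v ∈ Nc G s
    · obtain ⟨s, hs, hv⟩ := hdom
      by_cases hiso : ∀ t ∈ S, ¬ G.Adj s t
      · exact h0 ⟨s, hs, hiso, hv⟩
      · push Not at hiso
        exact h1 ⟨s, (hS1 s).2 ⟨hs, hiso⟩, Or.inl hv⟩
    · push Not at hdom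
      obtain ⟨s, hs, hex, w, hw⟩ := undominated G hC4 hS hdom
      exact h1 ⟨s, (hS1 s).2 ⟨hs, hex⟩, Or.inr ⟨w, hw⟩⟩)
  have hcard : S.ncard = S0.card + S1.card := by
    have hdisj : Disjoint S0 S1 := by
      rw [Finset.disjoint_left]
      intro s h0 h1
      obtain ⟨_, h0⟩ := (hS0 s).1 h0
      obtain ⟨_, t, ht, hst⟩ := (hS1 s).1 h1
      exact h0 t ht hst
    rw [← card_union_of_disjoint hdisj, ← Set.ncard_coe_finset]
    congr 1
    ext s
    simp only [coe_union, Set.mem_union, Finset.mem_coe, hS0, hS1]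
    constructor
    · intro hs
      by_cases h : ∀ t ∈ S, ¬ G.Adj s t
      · exact Or.inl ⟨hs, h⟩
      · push Not at h; exact Or.inr ⟨hs, h⟩
    · rintro (h | h) <;> exact h.1
  have hcost : cost (fun v => f v + if v ∈ S0 then 1 else 0) = cost f + S0.card := by
    unfold cost
    rw [Finset.sum_add_distrib]
    simp
  have h1 : gammab G ≤ cost g := Nat.sInf_le ⟨g, hg1, rfl⟩
  omega

theorem gammab_le_ir [Nontrivial V] (hc : G.Connected)
    (htri : ∀ a b c, G.Adj a b → G.Adj b c → ¬ G.Adj a c)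
    (hC4 : ∀ u v w w', u ≠ v → G.Adj u w → G.Adj v w → G.Adj u w' → G.Adj v w' → w = w') :
    gammab G ≤ ir G := by
  have hne : {n | ∃ S : Set V, MaxIrr G S ∧ S.ncard = n}.Nonempty := by
    have hfin : {S : Set V | Irr G S}.Finite := Set.toFinite _
    have hne : {S : Set V | Irr G S}.Nonempty := ⟨∅, fun s hs => absurd hs (by simp)⟩
    obtain ⟨S, hS⟩ := hfin.exists_maximal hne
    refine ⟨S.ncard, S, ⟨hS.1, ?_⟩, rfl⟩
    intro S' hSS' hirr
    exact hSS'.2 (hS.2 hirr hSS'.1)
  obtain ⟨S, hS, hcard⟩ := Nat.sInf_mem hne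
  unfold ir
  rw [← hcard]
  exact gammab_le_card G hc htri hC4 hS

end main

theorem girth_tri {V : Type} (G : SimpleGraph V) (hg : 5 ≤ G.egirth) :
    ∀ a b c, G.Adj a b → G.Adj b c → ¬ G.Adj a c := by
  classical
  intro a b c hab hbc hac
  let p : G.Walk a a := Walk.cons hab (Walk.cons hbc (Walk.cons hac.symm Walk.nil))
  have hp : p.IsCycle := by
    have h1 := G.ne_of_adj hab
    have h2 := G.ne_of_adj hbc
    have h3 := G.ne_of_adj hac
    simp only [p, Walk.cons_isCycle_iff, Walk.cons_isPath_iff, Walk.isPath_iff_nil]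
    refine ⟨⟨⟨?_, ?_⟩, ?_⟩, ?_⟩
    all_goals simp [h1, h2, h3, h1.symm, h2.symm, h3.symm]
  have := egirth_le_length hp
  have h5 := le_trans hg this
  simp [p] at h5
  norm_num at h5

theorem girth_C4 {V : Type} (G : SimpleGraph V) (hg : 5 ≤ G.egirth) :
    ∀ u v w w', u ≠ v → G.Adj u w → G.Adj v w → G.Adj u w' → G.Adj v w' → w = w' := by
  classical
  intro u v w w' huv h1 h2 h3 h4
  by_contra hne
  let p : G.Walk u u :=
    Walk.cons h1 (Walk.cons h2.symm (Walk.cons h4 (Walk.cons h3.symm Walk.nil)))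
  have hp : p.IsCycle := by
    have e1 := G.ne_of_adj h1
    have e2 := G.ne_of_adj h2
    have e3 := G.ne_of_adj h3
    have e4 := G.ne_of_adj h4
    simp only [p, Walk.cons_isCycle_iff, Walk.cons_isPath_iff, Walk.isPath_iff_nil]
    refine ⟨⟨⟨⟨?_, ?_⟩, ?_⟩, ?_⟩, ?_⟩
    all_goals simp [e1, e2, e3, e4, e1.symm, e2.symm, e3.symm, e4.symm, hne, huv, huv.symm,
      Ne.symm hne]
  have := egirth_le_length hp
  have h5 := le_trans hg this
  simp [p] at h5
  norm_num at h5

/-- **Main result.**  For every finite connected graph with at least two vertices and girth at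
least `5`, `ir_b ≤ γ_b ≤ ir`; in particular every tree with at least two vertices satisfies
`ir_b(T) ≤ ir(T)`. -/
theorem result :
    (∀ (V : Type) [Fintype V] [Nontrivial V] (G : SimpleGraph V), G.Connected → 5 ≤ G.egirth →
      irb G ≤ gammab G ∧ gammab G ≤ ir G) ∧
    (∀ (V : Type) [Fintype V] [Nontrivial V] (T : SimpleGraph V), T.IsTree → irb T ≤ ir T) := by
  have h1 : ∀ (V : Type) [Fintype V] [Nontrivial V] (G : SimpleGraph V), G.Connected →
      5 ≤ G.egirth → irb G ≤ gammab G ∧ gammab G ≤ ir G := by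
    intro V _ _ G hc hg
    classical
    exact ⟨irb_le_gammab G hc, gammab_le_ir G hc (girth_tri G hg) (girth_C4 G hg)⟩
  refine ⟨h1, ?_⟩
  intro V _ _ T hT
  have hg : (5 : ℕ∞) ≤ T.egirth := by
    rw [egirth_eq_top.2 hT.2]
    exact le_top
  obtain ⟨h2, h3⟩ := h1 V T hT.1 hg
  exact le_trans h2 h3

end Pool.Agent.Results.MP_f42b44_co.GirthFive
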